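import Pool.Agent.Helper43.Fr.Goals

/-!
# Transfer of polynomial identities in `(t, V)`
-/

namespace Pool.Agent.Helper43.Fr.PkNSQ

open scoped PowerSeries Polynomial
open Pool.Agent.Helper43.Fr

theorem nsq : G_NSQ := by
  intro K _ q t0 hq hq' V hV P hP S _ φ v hv
  classical
  let Q : K[X][X] := Polynomial.X ^ 2 - Polynomial.C q
  have hQm : Q.Monic := Polynomial.monic_X_pow_sub_C q two_ne_zero
  have hQd : Q.natDegree = 2 := Polynomial.natDegree_X_pow_sub_C
  have hdiv : P %ₘ Q + Q * (P /ₘ Q) = P := Polynomial.modByMonic_add_div P Q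
  have hdeg : (P %ₘ Q).natDegree < 2 := by
    rw [← hQd]
    apply Polynomial.natDegree_modByMonic_lt P hQm
    intro h
    rw [h] at hQd
    simp at hQd
  have hrep : P %ₘ Q = Polynomial.C ((P %ₘ Q).coeff 0) +
      Polynomial.C ((P %ₘ Q).coeff 1) * Polynomial.X := by
    conv_lhs => rw [(P %ₘ Q).as_sum_range' 2 hdeg]
    rw [Finset.sum_range_succ, Finset.sum_range_one]
    simp [Polynomial.C_mul_X_eq_monomial]
  set A := (P %ₘ Q).coeff 0 with hA
  set B := (P %ₘ Q).coeff 1 with hB
  have hVe : (A : K⟦X⟧) + (B : K⟦X⟧) * V = 0 := by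
    have h1 : Polynomial.eval₂ (Polynomial.coeToPowerSeries.ringHom (R := K)) V
        (P %ₘ Q + Q * (P /ₘ Q)) = 0 := by rw [hdiv]; exact hP
    rw [hrep] at h1
    have h2 : Polynomial.eval₂ (Polynomial.coeToPowerSeries.ringHom (R := K)) V Q = 0 := by
      simp [Q, Polynomial.eval₂_sub, hV]
    rw [Polynomial.eval₂_add, Polynomial.eval₂_mul, h2, zero_mul, add_zero,
      Polynomial.eval₂_add, Polynomial.eval₂_mul, Polynomial.eval₂_C, Polynomial.eval₂_C,
      Polynomial.eval₂_X] at h1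
    simpa using h1
  have hsq : A ^ 2 = B ^ 2 * q := by
    have h1 : ((A ^ 2 : K[X]) : K⟦X⟧) = ((B ^ 2 * q : K[X]) : K⟦X⟧) := by
      push_cast
      rw [← hV]
      have h2 : (A : K⟦X⟧) = - ((B : K⟦X⟧) * V) := by
        rw [eq_neg_iff_add_eq_zero]; exact hVe
      rw [h2]
      ring
    exact Polynomial.coe_injective K h1
  have hq0 : q ≠ 0 := by
    rintro rfl
    simp at hq'
  have hmq : q.rootMultiplicity t0 = 1 := by
    apply le_antisymm
    · by_contra h
      push Not at h
      have := (Polynomial.one_lt_rootMultiplicity_iff_isRoot hq0).mp h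
      exact hq' this.2
    · exact (Polynomial.rootMultiplicity_pos hq0).mpr hq
  have hB0 : B = 0 := by
    by_contra hB0
    have hA0 : A ≠ 0 := by
      intro hA0
      rw [hA0, zero_pow two_ne_zero] at hsq
      exact mul_ne_zero (pow_ne_zero 2 hB0) hq0 hsq.symm
    have h1 := congrArg (Polynomial.rootMultiplicity t0) hsq
    rw [Polynomial.rootMultiplicity_mul (mul_ne_zero (pow_ne_zero 2 hB0) hq0), hmq, pow_two,
      pow_two, Polynomial.rootMultiplicity_mul (mul_ne_zero hA0 hA0),
      Polynomial.rootMultiplicity_mul (mul_ne_zero hB0 hB0)] at h1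
    omega
  have hA0 : A = 0 := by
    rw [hB0, zero_pow two_ne_zero, zero_mul] at hsq
    exact pow_eq_zero_iff two_ne_zero |>.mp hsq
  rw [hA0, hB0] at hrep
  rw [← hdiv, hrep]
  have h3 : Polynomial.eval₂ φ v Q = 0 := by
    simp [Q, Polynomial.eval₂_sub, hv]
  simp [Polynomial.eval₂_mul, h3]

end Pool.Agent.Helper43.Fr.PkNSQ
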